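import Pool.Agent.Lib.MP_f72ae4_gt.Bridge

/-!
# MP_f72ae4_gt, Q1 (the symplectic Hadamard question): full answer, YES

Let `(M, Ω)` be a simply connected (in particular connected) symplectic manifold of dimension `2n`
with an `Ω`-compatible almost complex structure `J` (not assumed integrable) whose metric
`g_J = Ω(·, J ·)` is complete and has nonpositive sectional curvature. Then `(M, Ω)` is
symplectomorphic to `ℝ^{2n}` with its standard symplectic form.

Proof idea: in normal coordinates let `E` be the Euler field (the gradient of `r²/2`). Gauss' lemma and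
the comparison theorem give `L_E g ≥ 2 g`, and the identity
`2 (L_E Ω)(v, J v) = (L_E g)(v, v) + (L_E g)(J v, J v)` shows that the exact form `L_E Ω = d (i_E Ω)`
tames `J`. Two Moser isotopies (from `Ω` to `L_E Ω`, and, by dilations, from the constant form to
`L_E Ω / 2`) finish the proof.
-/

open scoped Manifold ContDiff

namespace Pool.Agent.Results.MP_f72ae4_gt.SymplecticHadamard

open Pool.Agent.SHP

theorem result (n : ℕ) (M : Type*) [TopologicalSpace M] [T2Space M]
    [SecondCountableTopology M] [ChartedSpace (EuclideanSpace ℝ (Fin (2 * n))) M]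
    [IsManifold 𝓘(ℝ, EuclideanSpace ℝ (Fin (2 * n))) ∞ M] [SimplyConnectedSpace M]
    (Ω : FormField (EuclideanSpace ℝ (Fin (2 * n))) M)
    (J : EndField (EuclideanSpace ℝ (Fin (2 * n))) M)
    (hΩ : IsSymplectic Ω) (hJ : IsCompatible Ω J) (hc : IsGeodesicallyComplete (metricOf Ω J))
    (hK : NonposCurved (metricOf Ω J)) :
    Symplectomorphic Ω (stdForm n) :=
  main hΩ hJ hc hK

end Pool.Agent.Results.MP_f72ae4_gt.SymplecticHadamard
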